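import Pool.Agent.W622.BK.Stm

/-!
# Project BK, part NZ: a nonzero form in `D_m` gives nonzero cohomology
-/

set_option autoImplicit false

namespace Pool.Agent.W19.BK

open Module Pool.Agent.W622.BK

universe u

section

variable {k : Type u} [Field k] {L : Type u} [LieRing L] [LieAlgebra k L]
variable {E : Type u} [AddCommGroup E] [Module k E]

/-- the cochain `det (pr (x_s) (u_t))` -/
noncomputable def FF {m : ℕ} (pr : L →ₗ[k] (E →ₗ[k] k)) (u : Fin m → E) : L [⋀^Fin m]→ₗ[k] k :=
  (Matrix.detRowAlternating (R := k) (n := Fin m)).compLinearMap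
    (LinearMap.pi fun t => (LinearMap.applyₗ (u t)) ∘ₗ pr)

theorem FF_apply {m : ℕ} (pr : L →ₗ[k] (E →ₗ[k] k)) (u : Fin m → E) (x : Fin m → L) :
    FF pr u x = (Matrix.of fun s t : Fin m => pr (x s) (u t)).det := rfl

theorem FF_cocycle {m : ℕ} (pr : L →ₗ[k] (E →ₗ[k] k)) (hpr : ∀ x y : L, pr ⁅x, y⁆ = 0)
    (u : Fin (m + 1) → E) (x : Fin (m + 2) → L) : dCE k L (FF pr u) x = 0 := by
  unfold dCE
  refine Finset.sum_eq_zero fun i _ => Finset.sum_eq_zero fun j _ => ?_
  split_ifs
  · rw [FF_apply, Matrix.det_eq_zero_of_row_eq_zero 0, mul_zero]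
    intro t
    rw [Matrix.of_apply, Fin.cons_zero, hpr, LinearMap.zero_apply]
  · rfl

theorem inner_zero {N : ℕ} (f : Fin N → Fin N → k) (h2 : (2 : k) ≠ 0)
    (hsymm : ∀ p q, f q p = f p q) (hdiag : ∀ p, f p p = 0) (hsum : ∑ p, ∑ q, f p q = 0) :
    ∑ p, ∑ q, (if p < q then f p q else 0) = 0 := by
  have h1 : ∀ p q, f p q = (if p < q then f p q else 0) + (if q < p then f p q else 0) := by
    intro p q
    rcases lt_trichotomy p q with h | h | h
    · rw [if_pos h, if_neg (not_lt_of_gt h), add_zero]
    · subst h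
      rw [if_neg (lt_irrefl _), hdiag, add_zero]
    · rw [if_neg (not_lt_of_gt h), if_pos h, zero_add]
  have h3 : ∑ p, ∑ q, (if q < p then f p q else 0) = ∑ p, ∑ q, (if p < q then f p q else 0) := by
    rw [Finset.sum_comm]
    refine Finset.sum_congr rfl fun p _ => Finset.sum_congr rfl fun q _ => ?_
    rw [hsymm p q]
  have h4 : ∑ p, ∑ q, f p q = 2 * ∑ p, ∑ q, (if p < q then f p q else 0) := by
    calc ∑ p, ∑ q, f p q = ∑ p, ∑ q, ((if p < q then f p q else 0) +
          (if q < p then f p q else 0)) :=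
        Finset.sum_congr rfl fun p _ => Finset.sum_congr rfl fun q _ => h1 p q
      _ = ∑ p, ∑ q, (if p < q then f p q else 0) + ∑ p, ∑ q, (if q < p then f p q else 0) := by
        simp only [Finset.sum_add_distrib]
      _ = _ := by rw [h3, two_mul]
  rw [hsum] at h4
  rcases mul_eq_zero.1 h4.symm with h | h
  · exact absurd h h2
  · exact h

theorem alt_sum_apply {ι : Type} {n : ℕ} (s : Finset ι) (f : ι → L [⋀^Fin n]→ₗ[k] k)
    (v : Fin n → L) : (∑ i ∈ s, f i) v = ∑ i ∈ s, f i v := by
  classical
  induction s using Finset.induction_on with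
  | empty => rw [Finset.sum_empty, Finset.sum_empty, AlternatingMap.zero_apply]
  | insert a s ha ih =>
    rw [Finset.sum_insert ha, Finset.sum_insert ha, AlternatingMap.add_apply, ih]

/-- the evaluation of forms at `v` -/
def evl {n : ℕ} (v : Fin n → E) : G k E n →ₗ[k] k where
  toFun := fun w => w v
  map_add' := fun _ _ => rfl
  map_smul' := fun _ _ => rfl

theorem beta_apply {n : ℕ} (ω : G k E (n + 2)) (v : Fin n → E) (e e' : E) :
    ((cc k E ω).compr₂ (evl v)) e e' = ω (Fin.cons e (Fin.cons e' v)) := rfl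

end

theorem t_NZ : S_NZ.{u} := by
  intro hALT hNZA hNZB hDALT k _ L _ _ E _ _ _ j pr h2 hprj hpr n hD
  obtain ⟨ω, hω, hω0⟩ := Submodule.exists_mem_ne_zero_of_ne_bot hD
  obtain ⟨ω', hω'⟩ := hDALT hALT k E (Rj j) ⊤ (n + 2) ω (fun β hβ e => hβ.1 e) hω
  have hu : ∃ u, ω u ≠ 0 := by
    by_contra hne
    push Not at hne
    exact hω0 (MultilinearMap.ext fun v => hne v)
  obtain ⟨u, hu⟩ := hu
  rw [Submodule.Quotient.nontrivial_iff]
  intro htop
  have hF : (fun x => FF pr u x) ∈ cocycles k L (n + 2) :=
    ⟨FF pr u, fun x => rfl, fun x => FF_cocycle pr hpr u x⟩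
  have hmem : (⟨_, hF⟩ : cocycles k L (n + 2)) ∈
      (coboundaries k L (n + 2)).comap (cocycles k L (n + 2)).subtype := by
    rw [htop]
    trivial
  obtain ⟨g, hg⟩ : ∃ g : L [⋀^Fin (n + 1)]→ₗ[k] k, ∀ x, FF pr u x = dCE k L g x := hmem
  set b := finBasis k E with hb
  have key := hNZA k (finrank k E) n (fun v => ω' (fun t => b (v t)))
    (fun p q J => g (Fin.cons ⁅j (b.coord p), j (b.coord q)⁆ (fun t => j (b.coord (J t)))))
    (fun v hv => ω'.map_eq_zero_of_not_injective _ (fun hinj => hv (fun s t hst =>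
      hinj (by
        show b (v s) = b (v t)
        rw [hst]))))
    (fun v σ => by
      have h := ω'.map_perm (fun t => b (v t)) σ
      rw [Units.smul_def, zsmul_eq_mul] at h
      exact h)
    (fun p q J => by
      have h : (g.curryLeft ⁅j (b.coord q), j (b.coord p)⁆) (fun t => j (b.coord (J t))) =
          - (g.curryLeft ⁅j (b.coord p), j (b.coord q)⁆) (fun t => j (b.coord (J t))) := by
        rw [← lie_skew, map_neg, AlternatingMap.neg_apply]
      exact h)
    (fun p q J σ => by
      have h := (g.curryLeft ⁅j (b.coord p), j (b.coord q)⁆).map_perm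
        (fun t => j (b.coord (J t))) σ
      rw [Units.smul_def, zsmul_eq_mul] at h
      exact h)
  have hL : ω' u = ∑ I : Fin (n + 2) ↪o Fin (finrank k E), ∑ i : Fin (n + 2), ∑ j' : Fin (n + 1),
    (if (i : ℕ) ≤ (j' : ℕ) then
      (fun v : Fin (n + 2) → Fin (finrank k E) => ω' (fun t => b (v t))) I *
        ((-1 : k) ^ ((i : ℕ) + (j' : ℕ) + 1) *
        (fun p q (J : Fin n → Fin (finrank k E)) =>
          g (Fin.cons ⁅j (b.coord p), j (b.coord q)⁆ (fun t => j (b.coord (J t)))))
          (I i) (I j'.succ) (fun t : Fin n => I (i.succAbove (j'.succAbove t))))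
    else 0) := by
    rw [hNZB k E _ (n + 2) b ω' u]
    refine Finset.sum_congr rfl fun I _ => ?_
    have h5 : (Matrix.of fun s t : Fin (n + 2) => b.coord (I s) (u t)).det =
        dCE k L g (fun s => j (b.coord (I s))) := by
      rw [← hg, FF_apply]
      congr 1
      ext s t
      rw [Matrix.of_apply, Matrix.of_apply, hprj]
    rw [h5]
    unfold dCE
    rw [Finset.mul_sum]
    refine Finset.sum_congr rfl fun i _ => ?_
    rw [Finset.mul_sum]
    refine Finset.sum_congr rfl fun j' _ => ?_
    rw [mul_ite, mul_zero]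
  have hzero : ω' u = 0 := by
    rw [hL, key, neg_eq_zero]
    refine Finset.sum_eq_zero fun J _ => ?_
    refine inner_zero (fun p q => ω' (fun t => b ((Fin.cons p (Fin.cons q J : Fin (n + 1) →
      Fin (finrank k E)) : Fin (n + 2) → Fin (finrank k E)) t)) *
        g (Fin.cons ⁅j (b.coord p), j (b.coord q)⁆ (fun t => j (b.coord (J t))))) h2 ?_ ?_ ?_
    · intro p q
      have h6 : ω' (fun t => b ((Fin.cons q (Fin.cons p J : Fin (n + 1) →
          Fin (finrank k E)) : Fin (n + 2) → Fin (finrank k E)) t)) =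
          - ω' (fun t => b ((Fin.cons p (Fin.cons q J : Fin (n + 1) →
          Fin (finrank k E)) : Fin (n + 2) → Fin (finrank k E)) t)) := by
        have h7 := ω'.map_swap (fun t => b ((Fin.cons p (Fin.cons q J : Fin (n + 1) →
          Fin (finrank k E)) : Fin (n + 2) → Fin (finrank k E)) t))
          (i := (0 : Fin (n + 2))) (j := 1) (by simp)
        rw [← h7]
        congr 1
        funext t
        refine Fin.cases ?_ (fun t => ?_) t
        · simp
        · refine Fin.cases ?_ (fun t => ?_) t
          · simp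
          · have h8 : (Equiv.swap (0 : Fin (n + 2)) 1) t.succ.succ = t.succ.succ := by
              apply Equiv.swap_apply_of_ne_of_ne
              · simp [Fin.ext_iff]
              · simp [Fin.ext_iff]
            simp [h8]
      have h9 : g (Fin.cons ⁅j (b.coord q), j (b.coord p)⁆ (fun t => j (b.coord (J t)))) =
          - g (Fin.cons ⁅j (b.coord p), j (b.coord q)⁆ (fun t => j (b.coord (J t)))) := by
        have h : (g.curryLeft ⁅j (b.coord q), j (b.coord p)⁆) (fun t => j (b.coord (J t))) =
            - (g.curryLeft ⁅j (b.coord p), j (b.coord q)⁆) (fun t => j (b.coord (J t))) := by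
          rw [← lie_skew, map_neg, AlternatingMap.neg_apply]
        exact h
      show _ * _ = _ * _
      rw [h6, h9, neg_mul_neg]
    · intro p
      show _ * _ = _
      rw [lie_self]
      have h : (g.curryLeft (0 : L)) (fun t => j (b.coord (J t))) = 0 := by
        rw [map_zero, AlternatingMap.zero_apply]
      have h' : g (Fin.cons (0 : L) (fun t => j (b.coord (J t)))) = 0 := h
      rw [h', mul_zero]
    · set β : E →ₗ[k] E →ₗ[k] k := (cc k E ω).compr₂ (evl (fun t => b (J t))) with hβ
      have hβR : β ∈ Rj j := hω.2 (evl (fun t => b (J t)))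
      have hβω : ∀ p q, β (b p) (b q) = ω' (fun t => b ((Fin.cons p (Fin.cons q J : Fin (n + 1) →
          Fin (finrank k E)) : Fin (n + 2) → Fin (finrank k E)) t)) := by
        intro p q
        rw [hβ, beta_apply, hω']
        congr 1
        funext t
        refine Fin.cases ?_ (fun t => ?_) t
        · simp
        · refine Fin.cases ?_ (fun t => ?_) t
          · simp
          · simp
      have hBr : Br j β = 0 := hβR.2
      have h10 : ∀ p, ∑ q, ω' (fun t => b ((Fin.cons p (Fin.cons q J : Fin (n + 1) →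
          Fin (finrank k E)) : Fin (n + 2) → Fin (finrank k E)) t)) *
          g (Fin.cons ⁅j (b.coord p), j (b.coord q)⁆ (fun t => j (b.coord (J t)))) =
          (g.curryLeft ⁅j (b.coord p), j (β (b p))⁆) (fun t => j (b.coord (J t))) := by
        intro p
        have h11 : β (b p) = ∑ q, (β (b p)) (b q) • b.coord q :=
          (Basis.sum_dual_apply_smul_coord b (β (b p))).symm
        rw [h11, map_sum, lie_sum, map_sum, alt_sum_apply]
        refine Finset.sum_congr rfl fun q _ => ?_
        rw [map_smul, lie_smul, map_smul, AlternatingMap.smul_apply, hβω p q, smul_eq_mul]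
        rfl
      calc _ = ∑ p, (g.curryLeft ⁅j (b.coord p), j (β (b p))⁆) (fun t => j (b.coord (J t))) :=
            Finset.sum_congr rfl fun p _ => h10 p
        _ = (g.curryLeft (Br j β)) (fun t => j (b.coord (J t))) := by
            unfold Br
            rw [map_sum, alt_sum_apply]
        _ = 0 := by rw [hBr, map_zero, AlternatingMap.zero_apply]
  rw [hω'] at hzero
  exact hu hzero

end Pool.Agent.W19.BK
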